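import Pool.Agent.GV.FIN.Main

/-!
Gouvea's slope distribution conjecture for the pair `(p, N) = (2, 1)`, all even weights.

The statement is the frozen statement of the problem with `p = 2` and `N = 1`: `T k` is the operator
`U_2` on `S_k(Γ₀(2))`, `P k` its characteristic polynomial (the monic rational polynomial of degree
`dim S_k(Γ₀(2))` whose complex root multiplicities are the dimensions of the generalised eigenspaces
of `T k`), and the conclusion is the convergence of the averages of every bounded continuous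
function `f` over the numbers `v_2(x) / (k - 1)`, `x` a root of `P k` in an algebraic closure of
`ℚ_2`, to `∫_0^(1/3) f + ∫_(2/3)^1 f + f(1/2) / 3`, as the even weight `k = 2 m` tends to infinity.
-/

open scoped MatrixGroups

namespace Pool.Agent.Helper91.Kept.TwoOne

theorem result :
    ∀ (T : ∀ k : ℕ, Module.End ℂ
        (CuspForm ((CongruenceSubgroup.Gamma0 2 : Subgroup SL(2, ℤ)) :
          Subgroup (GL (Fin 2) ℝ)) (k : ℤ)))
      (P : ℕ → Polynomial ℚ),
    (∀ (k : ℕ) (f : CuspForm ((CongruenceSubgroup.Gamma0 2 : Subgroup SL(2, ℤ)) :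
          Subgroup (GL (Fin 2) ℝ)) (k : ℤ)) (z : UpperHalfPlane),
        (T k f : UpperHalfPlane → ℂ) z =
          (1 / 2 : ℂ) * ∑ j ∈ Finset.range 2,
            (f : UpperHalfPlane → ℂ) (UpperHalfPlane.ofComplex (((z : ℂ) + (j : ℂ)) / 2))) →
    (∀ k : ℕ, (P k).Monic ∧
        (P k).natDegree = Module.finrank ℂ
          (CuspForm ((CongruenceSubgroup.Gamma0 2 : Subgroup SL(2, ℤ)) :
            Subgroup (GL (Fin 2) ℝ)) (k : ℤ)) ∧
        ∀ μ : ℂ, ((P k).map (algebraMap ℚ ℂ)).rootMultiplicity μ =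
          Module.finrank ℂ (Module.End.maxGenEigenspace (T k) μ)) →
    ∀ f : BoundedContinuousFunction ℝ ℝ,
      Filter.Tendsto
        (fun m : ℕ =>
          (((P (2 * m)).map (algebraMap ℚ (PadicAlgCl 2))).roots.map
              (fun x => f (-Real.logb 2 ‖x‖ / ((2 * (m : ℝ)) - 1)))).sum /
            (Module.finrank ℂ
              (CuspForm ((CongruenceSubgroup.Gamma0 2 : Subgroup SL(2, ℤ)) :
                Subgroup (GL (Fin 2) ℝ)) ((2 * m : ℕ) : ℤ)) : ℝ))
        Filter.atTop
        (nhds ((∫ x in (0 : ℝ)..(1 / 3), f x) + (∫ x in (2 / 3 : ℝ)..1, f x) + 1 / 3 * f (1 / 2))) := by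
  intro T P hT hP f
  have h := Pool.Agent.GV.gouvea_two_one T P (fun k g z => by
    rw [hT k g z]
    norm_num) hP f
  have e2 : (((2 : ℕ) : ℝ)) = 2 := by norm_num
  have e3 : (1 : ℝ) / (2 + 1) = 1 / 3 := by norm_num
  have e4 : (2 : ℝ) / (2 + 1) = 2 / 3 := by norm_num
  have e5 : ((2 : ℝ) - 1) / (2 + 1) = 1 / 3 := by norm_num
  rw [e2, e3, e4, e5] at h
  exact h

end Pool.Agent.Helper91.Kept.TwoOne
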